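import Pool.Agent.TH71.GR.Stm
import Pool.Agent.TH71.PG.Lib

set_option autoImplicit false

/-!
# Linear feasibility for matrices of polynomial growth: potentials and lists in polynomial time
-/

namespace Pool.Agent.TH515.GR

open Pool.Agent.NPC Pool.Agent.H558R2 Pool.Agent.H622R3.SM Pool.Agent.W920.FC Pool.Agent.W920.FD
open Pool.Agent.TH71.PG Pool.Agent.TH71.GR

namespace POT

section

variable {α : Type} [TEnc α]

theorem pEr {m v u : α → ℕ} (hm : Poly m) (hv : Poly v) (hu : Poly u) :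
    Poly (fun a => er (m a) (v a) (u a)) := by
  unfold er
  fun_prop

theorem pAdj {m n v u : α → ℕ} {c : α → Cand} {o : α → List Outcome} (hm : Poly m) (hn : Poly n)
    (hc : Poly c) (ho : Poly o) (hv : Poly v) (hu : Poly u) :
    Poly (fun a => adj (m a) (n a) (c a) (o a) (v a) (u a)) := by
  unfold adj
  fun_prop

theorem pLab {x : α → PS} {v : α → ℕ} (hx : Poly x) (hv : Poly v) :
    Poly (fun a => lab (x a) (v a)) := by
  unfold lab
  fun_prop

theorem pNu {x : α → PS} {v : α → ℕ} (hx : Poly x) (hv : Poly v) :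
    Poly (fun a => nu (x a) (v a)) := by
  unfold nu
  fun_prop

theorem pDe {x : α → PS} {v : α → ℕ} (hx : Poly x) (hv : Poly v) :
    Poly (fun a => de (x a) (v a)) := by
  unfold de
  fun_prop

attribute [local fun_prop] pEr pAdj pLab pNu pDe

theorem pLpSR {m n : α → ℕ} {R : α → List ℕ} {c : α → Cand} {o : α → List Outcome} {x : α → PS}
    (hm : Poly m) (hn : Poly n) (hR : Poly R) (hc : Poly c) (ho : Poly o) (hx : Poly x) :
    Poly (fun a => (R a).map fun v =>
      ((((R a).filter fun u => adj (m a) (n a) (c a) (o a) v u &&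
        decide (lab (x a) u < lab (x a) v)).head?).map fun u =>
          (lab (x a) u, (de (x a) u, er (m a) v u :: nu (x a) u))).getD
            ((x a).getD v (0, ([], [])))) := by
  fun_prop

theorem pLpS {U W : α → List Unit} {c : α → Cand} {o : α → List Outcome} {x : α → PS}
    (hU : Poly U) (hW : Poly W) (hc : Poly c) (ho : Poly o) (hx : Poly x) :
    Poly (fun a => lpS (U a).length (W a).length (c a) (o a) (x a)) :=
  pLpSR (Poly.length hU) (Poly.length hW)
    (UPoly.add (UPoly.length hU) (UPoly.length hW)).range hc ho hx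

theorem pLp0R {R : α → List ℕ} (hR : Poly R) :
    Poly (fun a => (R a).map fun v => ((v, ([], [])) : ℕ × (List Reg × List Reg))) := by
  fun_prop

theorem pLp0 {U W : α → List Unit} (hU : Poly U) (hW : Poly W) :
    Poly (fun a => lp0 (U a).length (W a).length) :=
  pLp0R (UPoly.add (UPoly.length hU) (UPoly.length hW)).range

/-- The product of the denominators. -/
def apR (R : List ℕ) (x : PS) : List Reg := R.flatMap fun v => de x v

/-- The factor of a vertex. -/
def aqR (R : List ℕ) (x : PS) (v : ℕ) : List Reg :=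
  nu x v ++ (R.filter fun u => !(decide (u = v))).flatMap fun u => de x u

theorem pApR {R : α → List ℕ} {x : α → PS} (hR : Poly R) (hx : Poly x) :
    Poly (fun a => apR (R a) (x a)) := by
  unfold apR
  fun_prop

theorem pAqR {R : α → List ℕ} {x : α → PS} {v : α → ℕ} (hR : Poly R) (hx : Poly x)
    (hv : Poly v) : Poly (fun a => aqR (R a) (x a) (v a)) := by
  unfold aqR
  fun_prop

attribute [local fun_prop] pApR pAqR

theorem pA1R {R : α → List ℕ} {x : α → PS} (hR : Poly R) (hx : Poly x) :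
    Poly (fun a => apR (R a) (x a) ++ apR (R a) (x a)) := by
  fun_prop

theorem pAt0R {m : α → ℕ} {R : α → List ℕ} {P : α → List (ℕ × ℕ)} {c : α → Cand} {x : α → PS}
    (hm : Poly m) (hR : Poly R) (hP : Poly P) (hc : Poly c) (hx : Poly x) :
    Poly (fun a => (apR (R a) (x a) ++ apR (R a) (x a)) ::
      (((P a).filter fun p => !(decide (p.1 ∈ (c a).1)) && !(decide (p.2 ∈ (c a).2))).map
        fun p => ([0, p.1, p.2] : Reg) ::
          (aqR (R a) (x a) p.1 ++ aqR (R a) (x a) (m a + p.2)))) := by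
  fun_prop

theorem pAt1R {m : α → ℕ} {R S : α → List ℕ} {P : α → List (ℕ × ℕ)} {x : α → PS}
    (hm : Poly m) (hR : Poly R) (hS : Poly S) (hP : Poly P) (hx : Poly x) :
    Poly (fun a => (apR (R a) (x a) ++ apR (R a) (x a)) ::
      (((P a).map fun p => ([0, p.1, p.2] : Reg) ::
          (aqR (R a) (x a) p.1 ++ aqR (R a) (x a) (m a + p.2))) ++
        (S a).map fun i => ([1, i] : Reg) :: (aqR (R a) (x a) i ++ apR (R a) (x a)))) := by
  fun_prop

theorem pKlR {R : α → List ℕ} {x : α → PS} (hR : Poly R) (hx : Poly x) :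
    Poly (fun a => apR (R a) (x a) :: (R a).map fun v => aqR (R a) (x a) v) := by
  fun_prop

theorem pCatStep {G E : α → List (List Reg)} (hG : Poly G) (hE : Poly E) :
    Poly (fun a => (G a).flatMap fun r => (E a).map fun e => r ++ e) := by
  fun_prop

theorem pCatL {G : α → List (List Reg)} (hG : Poly G) (κ : ℕ) : Poly (fun a => catL (G a) κ) := by
  induction κ with
  | zero => exact NPC.Poly.const _
  | succ κ ih => exact pCatStep hG ih

theorem pFinR {B C K : α → List (List Reg)} (hB : Poly B) (hC : Poly C) (hK : Poly K) :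
    Poly (fun a => [] :: (B a).flatMap fun e => (C a).flatMap fun f =>
      (K a).map fun q => e ++ (f ++ q)) := by
  fun_prop

theorem pSup {P : α → List (ℕ × ℕ)} (hP : Poly P) :
    Poly (fun a => (P a).map fun p => (([], [0, p.1, p.2]) : Qry)) := by
  fun_prop

theorem u_gh0 (k : ℕ) {s : α → ℕ} (hs : UPoly s) : UPoly (fun a => gh0 k (s a)) :=
  UPoly.add (UPoly.mul (TQV.uPow hs k) (TQV.uPow hs k))
    (UPoly.mul (UPoly.add (TQV.uPow hs k) (UPoly.const 1))
      (UPoly.add (TQV.uPow hs k) (UPoly.const 1)))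

theorem u_gN0 (k : ℕ) {s : α → ℕ} (hs : UPoly s) : UPoly (fun a => gN0 k (s a)) :=
  UPoly.mul (UPoly.add (TQV.uPow hs k) (UPoly.const 1))
    (UPoly.add (UPoly.const 1) (UPoly.mul hs hs))

theorem u_gB (k : ℕ) {s : α → ℕ} (hs : UPoly s) : UPoly (fun a => gB k (s a)) :=
  UPoly.mul (UPoly.add (UPoly.mul (UPoly.add (u_gN0 k hs) (UPoly.const 1))
    (u_pE (u_gh0 k hs) (u_gN0 k hs))) (UPoly.const 1)) (TQV.uPow hs k)

theorem u_gh1 (k : ℕ) {s : α → ℕ} (hs : UPoly s) : UPoly (fun a => gh1 k (s a)) :=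
  UPoly.add (UPoly.mul hs hs) (UPoly.mul hs (UPoly.add (u_gN0 k hs) (u_gB k hs)))

theorem u_stp {s : α → ℕ} (hs : UPoly s) : UPoly (fun a => Pool.Agent.TH71.GR.stp (s a)) :=
  UPoly.add (UPoly.mul hs hs) (UPoly.const 1)

theorem u_gT (k : ℕ) {s : α → ℕ} (hs : UPoly s) : UPoly (fun a => gT k (s a)) :=
  UPoly.mul (UPoly.add (UPoly.add hs (UPoly.const (2 * k))) (UPoly.const 2))
    (UPoly.add (UPoly.const 1) (UPoly.mul (UPoly.const 2)
      (UPoly.mul (UPoly.add hs (UPoly.const 1)) (u_stp hs))))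

end

/-! ### The size of the states -/

/-- The bound for an entry of a state. -/
def GE (s i : ℕ) (e : ℕ × (List Reg × List Reg)) : Prop :=
  e.1 ≤ s ∧ e.2.1.length ≤ i ∧ e.2.2.length ≤ i ∧
    (∀ r ∈ e.2.1, r.length = 3 ∧ ∀ q ∈ r, q ≤ s) ∧
    ∀ r ∈ e.2.2, r.length = 3 ∧ ∀ q ∈ r, q ≤ s

theorem GE.succ {s i : ℕ} {e : ℕ × (List Reg × List Reg)} (h : GE s i e) : GE s (i + 1) e :=
  ⟨h.1, h.2.1.trans (Nat.le_succ _), h.2.2.1.trans (Nat.le_succ _), h.2.2.2⟩

theorem GE.getD {s i : ℕ} {x : PS} (h : ∀ e ∈ x, GE s i e) (v : ℕ) :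
    GE s i (x.getD v (0, ([], []))) := by
  rcases TQ1.getD_mem_or x v (0, ([], [])) with h1 | h1
  · exact h _ h1
  · rw [h1]
    refine ⟨Nat.zero_le _, Nat.zero_le _, Nat.zero_le _, ?_, ?_⟩ <;>
      exact fun r hr => absurd hr List.not_mem_nil

/-- The bound for a state. -/
def GS (s i : ℕ) (x : PS) : Prop := x.length = s ∧ ∀ e ∈ x, GE s i e

theorem gs_zero (m n : ℕ) : GS (m + n) 0 (lp0 m n) := by
  unfold lp0
  refine ⟨by simp, fun e he => ?_⟩
  obtain ⟨v, hv, rfl⟩ := List.mem_map.1 he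
  rw [List.mem_range] at hv
  refine ⟨hv.le, le_rfl, le_rfl, ?_, ?_⟩ <;> exact fun r hr => absurd hr List.not_mem_nil

theorem gs_succ {m n i : ℕ} (c : Cand) (o : List Outcome) {x : PS} (h : GS (m + n) i x) :
    GS (m + n) (i + 1) (lpS m n c o x) := by
  obtain ⟨-, h2⟩ := h
  unfold lpS
  refine ⟨by simp, fun e he => ?_⟩
  obtain ⟨v, hv, rfl⟩ := List.mem_map.1 he
  rw [List.mem_range] at hv
  cases hnb : nb m n c o x v with
  | none => exact (GE.getD h2 v).succ
  | some u =>
    have hu : u < m + n := by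
      unfold nb at hnb
      have h3 := List.mem_of_mem_head? (by rw [hnb]; exact rfl : u ∈ _)
      exact List.mem_range.1 (List.mem_filter.1 h3).1
    obtain ⟨g1, g2, g3, g4, g5⟩ := GE.getD h2 u
    refine ⟨g1, g3.trans (Nat.le_succ _), Nat.succ_le_succ g2, g5, ?_⟩
    intro r hr
    rcases List.mem_cons.1 hr with rfl | hr
    · refine ⟨rfl, fun q hq => ?_⟩
      unfold er at hq
      simp only [List.mem_cons, List.not_mem_nil, or_false] at hq
      rcases hq with rfl | rfl | rfl <;> omega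
    · exact g4 r hr

theorem gs_out {m n : ℕ} (c : Cand) (o : List Outcome) : ∀ (i : ℕ) (x : PS),
    Out (iter (fun x => (ret (lpS m n c o x) : TT PS)) i (lp0 m n)) x → GS (m + n) i x := by
  obtain ⟨o1, o2, o3, -⟩ := lOUT
  intro i
  induction i with
  | zero =>
    intro x h
    rw [o1 _ _ _ h]
    exact gs_zero m n
  | succ i ih =>
    intro x h
    obtain ⟨b, hb1, hb2⟩ := o3 _ _ _ _ _ h
    rw [o1 _ _ _ hb2]
    exact gs_succ c o (ih b hb1)

/-- The bound for the size of a state. -/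
def HB (s : ℕ) : ℕ :=
  s * ((4 * s + 1) + (2 * ((s * s + 1) * (3 * (4 * s + 2) + 2) + 1) + 1) + 1 + 1) + 1

theorem HB_mono {s t : ℕ} (h : s ≤ t) : HB s ≤ HB t := by
  unfold HB
  gcongr

/-- The polynomial for the states. -/
noncomputable def HBP (p : Polynomial ℕ) : Polynomial ℕ :=
  p * ((4 * p + 1) + (2 * ((p * p + 1) * (3 * (4 * p + 2) + 2) + 1) + 1) + 1 + 1) + 1

theorem HBP_eval (p : Polynomial ℕ) (x : ℕ) : (HBP p).eval x = HB (p.eval x) := by
  unfold HBP HB
  simp only [Polynomial.eval_add, Polynomial.eval_mul, Polynomial.eval_one, Polynomial.eval_ofNat]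

theorem sz_le_nat {q s : ℕ} (h : q ≤ s) : sz q ≤ 4 * s + 1 := by
  have h1 := sz_nat_le q
  have h2 := Poly.size_le_self q
  omega

theorem sz_regs {s i : ℕ} {l : List Reg} (hl : l.length ≤ i)
    (h : ∀ r ∈ l, r.length = 3 ∧ ∀ q ∈ r, q ≤ s) : sz l ≤ i * (3 * (4 * s + 2) + 2) + 1 := by
  have h1 := sz_le_length_mul l (3 * (4 * s + 2) + 1) (by
    intro r hr
    obtain ⟨g1, g2⟩ := h r hr
    have g3 := sz_le_length_mul r (4 * s + 1) (fun q hq => sz_le_nat (g2 q hq))
    rw [g1] at g3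
    exact g3)
  have h2 := Nat.mul_le_mul_right (3 * (4 * s + 2) + 2) hl
  exact h1.trans (Nat.succ_le_succ h2)

theorem sz_state {s i : ℕ} (hi : i ≤ Pool.Agent.TH71.GR.stp s) {x : PS} (h : GS s i x) :
    sz x ≤ HB s := by
  obtain ⟨h1, h2⟩ := h
  have h3 := sz_le_length_mul x
    ((4 * s + 1) + (2 * ((s * s + 1) * (3 * (4 * s + 2) + 2) + 1) + 1) + 1) (by
    intro e he
    obtain ⟨g1, g2, g3, g4, g5⟩ := h2 e he
    have e1 : sz e = sz e.1 + sz e.2 + 1 := sz_pair e.1 e.2
    have e2 : sz e.2 = sz e.2.1 + sz e.2.2 + 1 := sz_pair e.2.1 e.2.2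
    have e3 := sz_le_nat g1
    have e4 := sz_regs (g2.trans hi) g4
    have e5 := sz_regs (g3.trans hi) g5
    unfold Pool.Agent.TH71.GR.stp at e4 e5
    omega)
  rw [h1] at h3
  exact h3

end POT

open POT in
/-- Potentials in polynomial time. -/
theorem t_PTPOT : S_PTPOT := by
  intro α _ U W c o hU hW hc ho
  obtain ⟨pt1, pt2, pt3⟩ := t_PT
  obtain ⟨-, -, -, shr1, -⟩ := lOUT
  have hs : UPoly (fun a => (U a).length + (W a).length) :=
    UPoly.add (UPoly.length hU) (UPoly.length hW)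
  obtain ⟨p, hp⟩ := TQ1.upoly_bound hs
  refine t_PTITER α PS (fun a x => (ret (lpS (U a).length (W a).length (c a) (o a) x) : TT PS))
    (fun a => Pool.Agent.TH71.GR.stp ((U a).length + (W a).length))
    (fun a => lp0 (U a).length (W a).length) ?_ (u_stp hs) (pLp0 hU hW) ?_ ⟨HBP p, ?_⟩
  · have f1 : Poly (fun q : α × PS => q.1) := Poly.fst Poly.id
    exact pt1 (α × PS) PS (fun q => lpS (U q.1).length (W q.1).length (c q.1) (o q.1) q.2)
      (pLpS (hU.comp f1) (hW.comp f1) (hc.comp f1) (ho.comp f1) (Poly.snd Poly.id))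
  · exact fun a s => shr1 _ _
  · intro a i s hi hout
    have h1 := gs_out (c a) (o a) i s hout
    refine (sz_state hi h1).trans ?_
    rw [HBP_eval]
    exact HB_mono (hp a)

open POT in
/-- Atoms and the final lists in polynomial time. -/
theorem t_PLIST (k : ℕ) : S_PLIST k := by
  intro α _ U W c x B hU hW hc hx hB
  have hs : UPoly (fun a => (U a).length + (W a).length) :=
    UPoly.add (UPoly.length hU) (UPoly.length hW)
  have hR : Poly (fun a => List.range ((U a).length + (W a).length)) := hs.range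
  have hS : Poly (fun a => List.range (U a).length) := (UPoly.length hU).range
  have hm : Poly (fun a => (U a).length) := Poly.length hU
  have hP := TQV.pPoss hU hW
  have h1 : Poly (fun a => at1 (U a).length (W a).length (x a)) := pAt1R hm hR hS hP hx
  have h2 : Poly (fun a => kl (U a).length (W a).length (x a)) := pKlR hR hx
  refine ⟨pA1R hR hx, pAt0R hm hR hP hc hx, pFinR hB (pCatL h1 (2 * k + 1)) h2, pSup hP,
    u_gh0 k hs, u_gh1 k hs, u_gT k hs⟩

end Pool.Agent.TH515.GR
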